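import Mathlib
import Pool.Agent.H39.TO.Targets

/-!
# Reflections in the hyperbolic plane: rotations about the centres
-/

set_option linter.unusedSimpArgs false

namespace Pool.Agent.H48.TOH

open Pool.Agent.H57.CP Pool.Agent.H39.TO

theorem mk_comm (x y : V4) : mk x y = mk y x := by
  simp only [mk]; ring

theorem refl_apply (a x : V4) (i : Fin 4) : refl a x i = x i + 2 * mk a x * a i := rfl

theorem refl_eq (a x : V4) : refl a x = x + (2 * mk a x) • a := by
  ext i; rw [refl_apply]; simp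

theorem mk_add_left (x y z : V4) : mk (x + y) z = mk x z + mk y z := by
  simp only [mk, Pi.add_apply]; ring

theorem mk_add_right (x y z : V4) : mk x (y + z) = mk x y + mk x z := by
  simp only [mk, Pi.add_apply]; ring

theorem mk_smul_left (r : ℝ) (x z : V4) : mk (r • x) z = r * mk x z := by
  simp only [mk, Pi.smul_apply, smul_eq_mul]; ring

theorem mk_smul_right (r : ℝ) (x z : V4) : mk x (r • z) = r * mk x z := by
  simp only [mk, Pi.smul_apply, smul_eq_mul]; ring

theorem mk_sub_left (x y z : V4) : mk (x - y) z = mk x z - mk y z := by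
  simp only [mk, Pi.sub_apply]; ring

theorem mk_sub_right (x y z : V4) : mk x (y - z) = mk x y - mk x z := by
  simp only [mk, Pi.sub_apply]; ring

theorem mk_refl_left (a x y : V4) : mk (refl a x) y = mk x (refl a y) := by
  rw [refl_eq, refl_eq, mk_add_left, mk_add_right, mk_smul_left, mk_smul_right, mk_comm x a]; ring

theorem mk_refl_refl (a : V4) (ha : mk a a = -1) (x y : V4) : mk (refl a x) (refl a y) = mk x y := by
  rw [refl_eq, refl_eq, mk_add_left, mk_add_right, mk_add_right, mk_smul_left, mk_smul_left, mk_smul_right,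
    mk_smul_right, ha, mk_comm x a]
  ring

theorem refl_refl (a : V4) (ha : mk a a = -1) (x : V4) : refl a (refl a x) = x := by
  have h : mk a (refl a x) = -mk a x := by
    rw [refl_eq, mk_add_right, mk_smul_right, ha]; ring
  rw [refl_eq a (refl a x), h, refl_eq a x]
  ext i
  simp only [Pi.add_apply, Pi.smul_apply, smul_eq_mul]
  ring

theorem refl_mul_self (a : V4) (ha : mk a a = -1) : refl a * refl a = 1 := by
  ext x i
  have := refl_refl a ha x
  simp only [LinearMap.coe_comp, Module.End.mul_apply, Function.comp_apply, LinearMap.coe_single,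
    Module.End.one_apply, refl_refl a ha]

/-- the Lorentzian cross product on the hyperplane of the coordinates `0, 1, 3` -/
def X (x y : V4) : V4 :=
  ![-(x 1 * y 3 - x 3 * y 1), -(x 3 * y 0 - x 0 * y 3), 0, x 0 * y 1 - x 1 * y 0]

theorem X0 (x y : V4) : X x y 0 = -(x 1 * y 3 - x 3 * y 1) := rfl
theorem X1 (x y : V4) : X x y 1 = -(x 3 * y 0 - x 0 * y 3) := rfl
theorem X2 (x y : V4) : X x y 2 = 0 := rfl
theorem X3 (x y : V4) : X x y 3 = x 0 * y 1 - x 1 * y 0 := rfl

theorem X_refl (a : V4) (ha : mk a a = -1) (ha2 : a 2 = 0) (x y : V4) (hx : x 2 = 0) (hy : y 2 = 0) :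
    X (refl a x) (refl a y) = -refl a (X x y) := by
  have h : a 3 * a 3 - a 0 * a 0 - a 1 * a 1 = -1 := by
    have := ha
    simp only [mk, ha2] at this
    linarith
  ext i
  fin_cases i
  · show X (refl a x) (refl a y) 0 = -(refl a (X x y) 0)
    simp only [X0, X1, X2, X3, refl_apply, mk, ha2, hx, hy]
    linear_combination (2 * (-(x 1 * y 3 - x 3 * y 1))) * h
  · show X (refl a x) (refl a y) 1 = -(refl a (X x y) 1)
    simp only [X0, X1, X2, X3, refl_apply, mk, ha2, hx, hy]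
    linear_combination (2 * (-(x 3 * y 0 - x 0 * y 3))) * h
  · show X (refl a x) (refl a y) 2 = -(refl a (X x y) 2)
    simp only [X0, X1, X2, X3, refl_apply, mk, ha2, hx, hy]
    ring
  · show X (refl a x) (refl a y) 3 = -(refl a (X x y) 3)
    simp only [X0, X1, X2, X3, refl_apply, mk, ha2, hx, hy]
    linear_combination (2 * (x 0 * y 1 - x 1 * y 0)) * h

theorem X_anti (x y : V4) : X y x = -X x y := by
  ext i
  fin_cases i
  · show X y x 0 = -(X x y 0)
    rw [X0, X0]; ring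
  · show X y x 1 = -(X x y 1)
    rw [X1, X1]; ring
  · show X y x 2 = -(X x y 2)
    rw [X2, X2]; ring
  · show X y x 3 = -(X x y 3)
    rw [X3, X3]; ring

theorem mk_X_left (x y : V4) : mk x (X x y) = 0 := by
  simp only [mk, X0, X1, X2, X3]; ring

theorem mk_X_right (x y : V4) : mk y (X x y) = 0 := by
  simp only [mk, X0, X1, X2, X3]; ring

theorem mk_X_X (x y : V4) (hx : x 2 = 0) (hy : y 2 = 0) :
    mk (X x y) (X x y) = mk x x * mk y y - mk x y ^ 2 := by
  simp only [mk, X0, X1, X2, X3, hx, hy]; ring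

theorem refl_two (a : V4) (ha2 : a 2 = 0) (x : V4) : refl a x 2 = x 2 := by
  rw [refl_apply, ha2]; ring

/-! ## trigonometry -/

theorem c2_eq (p : ℕ) : c2 p = 1 - 2 * Real.sin (Real.pi / p) ^ 2 := by
  unfold c2
  have h : 2 * Real.pi / p = 2 * (Real.pi / p) := by ring
  rw [h, Real.cos_two_mul]
  have := Real.sin_sq_add_cos_sq (Real.pi / p)
  linarith

theorem sin_pos' (p : ℕ) (hp : 3 ≤ p) : 0 < Real.sin (Real.pi / p) := by
  have hp' : (3 : ℝ) ≤ p := by exact_mod_cast hp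
  apply Real.sin_pos_of_pos_of_lt_pi
  · exact div_pos Real.pi_pos (by linarith)
  · exact div_lt_self Real.pi_pos (by linarith)

theorem cos_pos' (p : ℕ) (hp : 3 ≤ p) : 0 < Real.cos (Real.pi / p) := by
  have hp' : (3 : ℝ) ≤ p := by exact_mod_cast hp
  apply Real.cos_pos_of_mem_Ioo
  constructor
  · have : 0 < Real.pi / p := div_pos Real.pi_pos (by linarith)
    linarith [Real.pi_pos]
  · rw [div_lt_div_iff₀ (by linarith) (by norm_num)]
    nlinarith [Real.pi_pos]

theorem c2_lt_one (p : ℕ) (hp : 3 ≤ p) : c2 p < 1 := by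
  rw [c2_eq]
  have := sin_pos' p hp
  nlinarith

/-! ## the models -/

theorem nM_unit : mk nM nM = -1 := by
  simp [mk, nM]

theorem nM_two : nM 2 = 0 := by simp [nM]

theorem tM_unit (p : ℕ) : mk (tM p) (tM p) = -1 := by
  have := Real.sin_sq_add_cos_sq (Real.pi / p)
  simp only [mk, tM, Matrix.cons_val]
  linarith

theorem tM_two (p : ℕ) : (tM p) 2 = 0 := by simp [tM]

theorem hM_unit (p : ℕ) (C : ℝ) (hC : 1 < C) : mk (hM p C) (hM p C) = -1 := by
  have h1 := Real.sin_sq_add_cos_sq (Real.pi / p)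
  have h2 : Real.sqrt (C ^ 2 - 1) ^ 2 = C ^ 2 - 1 := Real.sq_sqrt (by nlinarith)
  simp only [mk, hM, Matrix.cons_val]
  linear_combination (Real.sin (Real.pi / p)) ^ 2 * h2 - h1

theorem hM_two (p : ℕ) (C : ℝ) : (hM p C) 2 = 0 := by simp [hM]

/-- generators -/
theorem gen_cases (p : ℕ) (C : ℝ) (hC : 1 < C) (r : Module.End ℝ V4)
    (hr : r ∈ ({refl nM, refl (tM p), refl (hM p C)} : Set (Module.End ℝ V4))) :
    ∃ a : V4, r = refl a ∧ mk a a = -1 ∧ a 2 = 0 := by
  rcases hr with h | h | h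
  · exact ⟨nM, h, nM_unit, nM_two⟩
  · exact ⟨tM p, h, tM_unit p, tM_two p⟩
  · exact ⟨hM p C, h, hM_unit p C hC, hM_two p C⟩

/-- both rotations about a centre -/
def Rt (p : ℕ) (C : ℝ) (x : V4) : Prop := ∀ d : ℝ, (d = 1 ∨ d = -1) → ∃ r ∈ Gam nM (tM p) (hM p C), ∀ y : V4, y 2 = 0 →
  r y = (c2 p) • y + ((1 - c2 p) * mk x y) • x + (d * (2 * Real.sin (Real.pi / p) * Real.cos (Real.pi / p))) • X x y

theorem Rt_o (p : ℕ) (C : ℝ) : Rt p C o.1 := by
  have h1 := Real.sin_sq_add_cos_sq (Real.pi / p)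
  have hn : refl nM ∈ Gam nM (tM p) (hM p C) := Submonoid.subset_closure (by simp)
  have ht : refl (tM p) ∈ Gam nM (tM p) (hM p C) := Submonoid.subset_closure (by simp)
  have o0 : o.1 0 = 0 := rfl
  have o1 : o.1 1 = 0 := rfl
  have o2 : o.1 2 = 0 := rfl
  have o3 : o.1 3 = 1 := rfl
  have n0 : nM 0 = 0 := rfl
  have n1 : nM 1 = 1 := rfl
  have n2 : nM 2 = 0 := rfl
  have n3 : nM 3 = 0 := rfl
  have t0 : tM p 0 = Real.sin (Real.pi / p) := rfl
  have t1 : tM p 1 = -Real.cos (Real.pi / p) := rfl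
  have t2 : tM p 2 = 0 := rfl
  have t3 : tM p 3 = 0 := rfl
  intro d hd
  rcases hd with hd | hd
  · refine ⟨refl nM * refl (tM p), mul_mem hn ht, fun y hy => ?_⟩
    rw [c2_eq, hd]
    ext i
    fin_cases i
    · show refl nM (refl (tM p) y) 0 = (1 - 2 * Real.sin (Real.pi / p) ^ 2) * y 0 +
        ((1 - (1 - 2 * Real.sin (Real.pi / p) ^ 2)) * mk o.1 y) * o.1 0 +
        (1 * (2 * Real.sin (Real.pi / p) * Real.cos (Real.pi / p))) * X o.1 y 0
      simp only [refl_apply, mk, X0, X1, X2, X3, o0, o1, o2, o3, n0, n1, n2, n3, t0, t1, t2, t3, hy]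
      linear_combination 0 * h1
    · show refl nM (refl (tM p) y) 1 = (1 - 2 * Real.sin (Real.pi / p) ^ 2) * y 1 +
        ((1 - (1 - 2 * Real.sin (Real.pi / p) ^ 2)) * mk o.1 y) * o.1 1 +
        (1 * (2 * Real.sin (Real.pi / p) * Real.cos (Real.pi / p))) * X o.1 y 1
      simp only [refl_apply, mk, X0, X1, X2, X3, o0, o1, o2, o3, n0, n1, n2, n3, t0, t1, t2, t3, hy]
      linear_combination 2 * y 1 * h1
    · show refl nM (refl (tM p) y) 2 = (1 - 2 * Real.sin (Real.pi / p) ^ 2) * y 2 +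
        ((1 - (1 - 2 * Real.sin (Real.pi / p) ^ 2)) * mk o.1 y) * o.1 2 +
        (1 * (2 * Real.sin (Real.pi / p) * Real.cos (Real.pi / p))) * X o.1 y 2
      simp only [refl_apply, mk, X0, X1, X2, X3, o0, o1, o2, o3, n0, n1, n2, n3, t0, t1, t2, t3, hy]
      ring
    · show refl nM (refl (tM p) y) 3 = (1 - 2 * Real.sin (Real.pi / p) ^ 2) * y 3 +
        ((1 - (1 - 2 * Real.sin (Real.pi / p) ^ 2)) * mk o.1 y) * o.1 3 +
        (1 * (2 * Real.sin (Real.pi / p) * Real.cos (Real.pi / p))) * X o.1 y 3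
      simp only [refl_apply, mk, X0, X1, X2, X3, o0, o1, o2, o3, n0, n1, n2, n3, t0, t1, t2, t3, hy]
      ring
  · refine ⟨refl (tM p) * refl nM, mul_mem ht hn, fun y hy => ?_⟩
    rw [c2_eq, hd]
    ext i
    fin_cases i
    · show refl (tM p) (refl nM y) 0 = (1 - 2 * Real.sin (Real.pi / p) ^ 2) * y 0 +
        ((1 - (1 - 2 * Real.sin (Real.pi / p) ^ 2)) * mk o.1 y) * o.1 0 +
        (-1 * (2 * Real.sin (Real.pi / p) * Real.cos (Real.pi / p))) * X o.1 y 0
      simp only [refl_apply, mk, X0, X1, X2, X3, o0, o1, o2, o3, n0, n1, n2, n3, t0, t1, t2, t3, hy]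
      linear_combination 0 * h1
    · show refl (tM p) (refl nM y) 1 = (1 - 2 * Real.sin (Real.pi / p) ^ 2) * y 1 +
        ((1 - (1 - 2 * Real.sin (Real.pi / p) ^ 2)) * mk o.1 y) * o.1 1 +
        (-1 * (2 * Real.sin (Real.pi / p) * Real.cos (Real.pi / p))) * X o.1 y 1
      simp only [refl_apply, mk, X0, X1, X2, X3, o0, o1, o2, o3, n0, n1, n2, n3, t0, t1, t2, t3, hy]
      linear_combination 2 * y 1 * h1
    · show refl (tM p) (refl nM y) 2 = (1 - 2 * Real.sin (Real.pi / p) ^ 2) * y 2 +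
        ((1 - (1 - 2 * Real.sin (Real.pi / p) ^ 2)) * mk o.1 y) * o.1 2 +
        (-1 * (2 * Real.sin (Real.pi / p) * Real.cos (Real.pi / p))) * X o.1 y 2
      simp only [refl_apply, mk, X0, X1, X2, X3, o0, o1, o2, o3, n0, n1, n2, n3, t0, t1, t2, t3, hy]
      ring
    · show refl (tM p) (refl nM y) 3 = (1 - 2 * Real.sin (Real.pi / p) ^ 2) * y 3 +
        ((1 - (1 - 2 * Real.sin (Real.pi / p) ^ 2)) * mk o.1 y) * o.1 3 +
        (-1 * (2 * Real.sin (Real.pi / p) * Real.cos (Real.pi / p))) * X o.1 y 3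
      simp only [refl_apply, mk, X0, X1, X2, X3, o0, o1, o2, o3, n0, n1, n2, n3, t0, t1, t2, t3, hy]
      ring

theorem Rt_aH (p : ℕ) (C : ℝ) (hC : 1 < C) : Rt p C (aH C) := by
  have h1 := Real.sin_sq_add_cos_sq (Real.pi / p)
  have h2 : Real.sqrt (C ^ 2 - 1) ^ 2 = C ^ 2 - 1 := Real.sq_sqrt (by nlinarith)
  have hn : refl nM ∈ Gam nM (tM p) (hM p C) := Submonoid.subset_closure (by simp)
  have ht : refl (hM p C) ∈ Gam nM (tM p) (hM p C) := Submonoid.subset_closure (by simp)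
  have o0 : aH C 0 = Real.sqrt (C ^ 2 - 1) := rfl
  have o1 : aH C 1 = 0 := rfl
  have o2 : aH C 2 = 0 := rfl
  have o3 : aH C 3 = C := rfl
  have n0 : nM 0 = 0 := rfl
  have n1 : nM 1 = 1 := rfl
  have n2 : nM 2 = 0 := rfl
  have n3 : nM 3 = 0 := rfl
  have t0 : hM p C 0 = -(Real.sin (Real.pi / p) * C) := rfl
  have t1 : hM p C 1 = -Real.cos (Real.pi / p) := rfl
  have t2 : hM p C 2 = 0 := rfl
  have t3 : hM p C 3 = -(Real.sin (Real.pi / p) * Real.sqrt (C ^ 2 - 1)) := rfl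
  intro d hd
  rcases hd with hd | hd
  · refine ⟨refl (hM p C) * refl nM, mul_mem ht hn, fun y hy => ?_⟩
    rw [c2_eq, hd]
    ext i
    fin_cases i
    · show refl (hM p C) (refl nM y) 0 = (1 - 2 * Real.sin (Real.pi / p) ^ 2) * y 0 +
        ((1 - (1 - 2 * Real.sin (Real.pi / p) ^ 2)) * mk (aH C) y) * aH C 0 +
        (1 * (2 * Real.sin (Real.pi / p) * Real.cos (Real.pi / p))) * X (aH C) y 0
      simp only [refl_apply, mk, X0, X1, X2, X3, o0, o1, o2, o3, n0, n1, n2, n3, t0, t1, t2, t3, hy]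
      linear_combination (2 * (Real.sin (Real.pi / p)) ^ 2 * y 0) * h2
    · show refl (hM p C) (refl nM y) 1 = (1 - 2 * Real.sin (Real.pi / p) ^ 2) * y 1 +
        ((1 - (1 - 2 * Real.sin (Real.pi / p) ^ 2)) * mk (aH C) y) * aH C 1 +
        (1 * (2 * Real.sin (Real.pi / p) * Real.cos (Real.pi / p))) * X (aH C) y 1
      simp only [refl_apply, mk, X0, X1, X2, X3, o0, o1, o2, o3, n0, n1, n2, n3, t0, t1, t2, t3, hy]
      linear_combination 2 * y 1 * h1
    · show refl (hM p C) (refl nM y) 2 = (1 - 2 * Real.sin (Real.pi / p) ^ 2) * y 2 +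
        ((1 - (1 - 2 * Real.sin (Real.pi / p) ^ 2)) * mk (aH C) y) * aH C 2 +
        (1 * (2 * Real.sin (Real.pi / p) * Real.cos (Real.pi / p))) * X (aH C) y 2
      simp only [refl_apply, mk, X0, X1, X2, X3, o0, o1, o2, o3, n0, n1, n2, n3, t0, t1, t2, t3, hy]
      ring
    · show refl (hM p C) (refl nM y) 3 = (1 - 2 * Real.sin (Real.pi / p) ^ 2) * y 3 +
        ((1 - (1 - 2 * Real.sin (Real.pi / p) ^ 2)) * mk (aH C) y) * aH C 3 +
        (1 * (2 * Real.sin (Real.pi / p) * Real.cos (Real.pi / p))) * X (aH C) y 3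
      simp only [refl_apply, mk, X0, X1, X2, X3, o0, o1, o2, o3, n0, n1, n2, n3, t0, t1, t2, t3, hy]
      linear_combination (2 * (Real.sin (Real.pi / p)) ^ 2 * y 3) * h2
  · refine ⟨refl nM * refl (hM p C), mul_mem hn ht, fun y hy => ?_⟩
    rw [c2_eq, hd]
    ext i
    fin_cases i
    · show refl nM (refl (hM p C) y) 0 = (1 - 2 * Real.sin (Real.pi / p) ^ 2) * y 0 +
        ((1 - (1 - 2 * Real.sin (Real.pi / p) ^ 2)) * mk (aH C) y) * aH C 0 +
        (-1 * (2 * Real.sin (Real.pi / p) * Real.cos (Real.pi / p))) * X (aH C) y 0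
      simp only [refl_apply, mk, X0, X1, X2, X3, o0, o1, o2, o3, n0, n1, n2, n3, t0, t1, t2, t3, hy]
      linear_combination (2 * (Real.sin (Real.pi / p)) ^ 2 * y 0) * h2
    · show refl nM (refl (hM p C) y) 1 = (1 - 2 * Real.sin (Real.pi / p) ^ 2) * y 1 +
        ((1 - (1 - 2 * Real.sin (Real.pi / p) ^ 2)) * mk (aH C) y) * aH C 1 +
        (-1 * (2 * Real.sin (Real.pi / p) * Real.cos (Real.pi / p))) * X (aH C) y 1
      simp only [refl_apply, mk, X0, X1, X2, X3, o0, o1, o2, o3, n0, n1, n2, n3, t0, t1, t2, t3, hy]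
      linear_combination 2 * y 1 * h1
    · show refl nM (refl (hM p C) y) 2 = (1 - 2 * Real.sin (Real.pi / p) ^ 2) * y 2 +
        ((1 - (1 - 2 * Real.sin (Real.pi / p) ^ 2)) * mk (aH C) y) * aH C 2 +
        (-1 * (2 * Real.sin (Real.pi / p) * Real.cos (Real.pi / p))) * X (aH C) y 2
      simp only [refl_apply, mk, X0, X1, X2, X3, o0, o1, o2, o3, n0, n1, n2, n3, t0, t1, t2, t3, hy]
      ring
    · show refl nM (refl (hM p C) y) 3 = (1 - 2 * Real.sin (Real.pi / p) ^ 2) * y 3 +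
        ((1 - (1 - 2 * Real.sin (Real.pi / p) ^ 2)) * mk (aH C) y) * aH C 3 +
        (-1 * (2 * Real.sin (Real.pi / p) * Real.cos (Real.pi / p))) * X (aH C) y 3
      simp only [refl_apply, mk, X0, X1, X2, X3, o0, o1, o2, o3, n0, n1, n2, n3, t0, t1, t2, t3, hy]
      linear_combination (2 * (Real.sin (Real.pi / p)) ^ 2 * y 3) * h2

theorem Rt_refl (p : ℕ) (C : ℝ) (a x : V4) (ha : mk a a = -1) (ha2 : a 2 = 0) (hx : x 2 = 0)
    (hm : refl a ∈ Gam nM (tM p) (hM p C)) (h : Rt p C x) : Rt p C (refl a x) := by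
  intro d hd
  obtain ⟨r, hr, hf⟩ := h (-d) (by rcases hd with rfl | rfl <;> simp)
  refine ⟨refl a * r * refl a, mul_mem (mul_mem hm hr) hm, fun y hy => ?_⟩
  have h2 : (refl a y) 2 = 0 := by rw [refl_two a ha2, hy]
  have h3 := hf (refl a y) h2
  show refl a (r (refl a y)) = _
  rw [h3, map_add, map_add, map_smul, map_smul, map_smul, refl_refl a ha]
  have h4 : refl a (X x (refl a y)) = -X (refl a x) y := by
    have := X_refl a ha ha2 x (refl a y) hx h2
    rw [refl_refl a ha] at this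
    rw [this, neg_neg]
  rw [h4, ← mk_refl_left]
  ext i
  simp only [Pi.add_apply, Pi.smul_apply, Pi.neg_apply, smul_eq_mul]
  ring

theorem o_in : mk o.1 o.1 = 1 := o.2.1

theorem aH_unit (C : ℝ) (hC : 1 < C) : mk (aH C) (aH C) = 1 := by
  have h2 : Real.sqrt (C ^ 2 - 1) ^ 2 = C ^ 2 - 1 := Real.sq_sqrt (by nlinarith)
  simp only [mk, aH, Matrix.cons_val]
  linear_combination -h2

/-- all centres: unit, in the plane, with both rotations -/
theorem PH_main (p : ℕ) (C : ℝ) (hC : 1 < C) (hL : T_LOR) (x : V4) (hx : x ∈ PH p C) :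
    mk x x = 1 ∧ 0 < x 3 ∧ x 2 = 0 ∧ Rt p C x := by
  obtain ⟨g, hg, hgx⟩ := hx
  have key : ∀ g ∈ Gam nM (tM p) (hM p C), ∀ u : V4, (mk u u = 1 ∧ 0 < u 3 ∧ u 2 = 0 ∧ Rt p C u) →
      (mk (g u) (g u) = 1 ∧ 0 < (g u) 3 ∧ (g u) 2 = 0 ∧ Rt p C (g u)) := by
    intro g hg
    induction hg using Submonoid.closure_induction_left with
    | one => intro u hu; exact hu
    | mul_left r hr y hy ih =>
      intro u hu
      obtain ⟨a, rfl, ha, ha2⟩ := gen_cases p C hC r hr
      obtain ⟨h1, h2, h3, h4⟩ := ih u hu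
      have e : (refl a * y) u = refl a (y u) := rfl
      rw [e]
      refine ⟨by rw [mk_refl_refl a ha, h1], ?_, by rw [refl_two a ha2, h3], ?_⟩
      · exact ((hL.2.2 a ha).1).2 ⟨y u, h1, h2⟩
      · exact Rt_refl p C a (y u) ha ha2 h3 (Submonoid.subset_closure hr) h4
  rcases hgx with rfl | rfl
  · exact key g hg o.1 ⟨o.2.1, o.2.2, rfl, Rt_o p C⟩
  · exact key g hg (aH C) ⟨aH_unit C hC, by show (0 : ℝ) < C; linarith, rfl, Rt_aH p C hC⟩

/-- the group acts on the centres -/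
theorem PH_act (p : ℕ) (C : ℝ) (x : V4) (hx : x ∈ PH p C) (g : Module.End ℝ V4)
    (hg : g ∈ Gam nM (tM p) (hM p C)) : g x ∈ PH p C := by
  obtain ⟨h, hh, hx⟩ := hx
  refine ⟨g * h, mul_mem hg hh, ?_⟩
  rcases hx with rfl | rfl
  · left; rfl
  · right; rfl

end Pool.Agent.H48.TOH
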