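import Mathlib
import Pool.Agent.H48.TOH.Base

/-!
# Models for three reflections (T_MDH, T_MDS)
-/

set_option linter.unusedSimpArgs false

namespace Pool.Agent.H48.TOH

open Pool.Agent.H57.CP Pool.Agent.H39.TO

/-- minors -/
def D3 (a b c : V4) (i j k : Fin 4) : ℝ :=
  a i * (b j * c k - b k * c j) - a j * (b i * c k - b k * c i) + a k * (b i * c j - b j * c i)

/-- the triple cross product -/
def W (a b c : V4) : V4 := ![D3 a b c 1 2 3, -D3 a b c 0 2 3, D3 a b c 0 1 3, D3 a b c 0 1 2]

theorem W0 (a b c : V4) : W a b c 0 = D3 a b c 1 2 3 := rfl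
theorem W1 (a b c : V4) : W a b c 1 = -D3 a b c 0 2 3 := rfl
theorem W2 (a b c : V4) : W a b c 2 = D3 a b c 0 1 3 := rfl
theorem W3 (a b c : V4) : W a b c 3 = D3 a b c 0 1 2 := rfl

theorem W_a (a b c : V4) : mk (W a b c) a = 0 := by
  simp only [mk, W0, W1, W2, W3, D3]; ring
theorem W_b (a b c : V4) : mk (W a b c) b = 0 := by
  simp only [mk, W0, W1, W2, W3, D3]; ring
theorem W_c (a b c : V4) : mk (W a b c) c = 0 := by
  simp only [mk, W0, W1, W2, W3, D3]; ring

theorem W_W (a b c : V4) : mk (W a b c) (W a b c) =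
    -(mk a a * (mk b b * mk c c - mk b c * mk b c) - mk a b * (mk a b * mk c c - mk b c * mk a c) +
      mk a c * (mk a b * mk b c - mk b b * mk a c)) := by
  simp only [mk, W0, W1, W2, W3, D3]; ring

theorem mk_zero_all (x : V4) (h : ∀ y, mk x y = 0) : x = 0 := by
  have h0 := h ![1, 0, 0, 0]
  have h1 := h ![0, 1, 0, 0]
  have h2 := h ![0, 0, 1, 0]
  have h3 := h ![0, 0, 0, 1]
  simp only [mk, Matrix.cons_val] at h0 h1 h2 h3
  ext i
  fin_cases i
  · show x 0 = 0
    linarith
  · show x 1 = 0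
    linarith
  · show x 2 = 0
    linarith
  · show x 3 = 0
    linarith

theorem mk_sum4 (c d : Fin 4 → ℝ) (v : Fin 4 → V4) :
    mk (∑ i, c i • v i) (∑ j, d j • v j) = ∑ i, ∑ j, c i * d j * mk (v i) (v j) := by
  simp only [Fin.sum_univ_four, mk_add_left, mk_add_right, mk_smul_left, mk_smul_right]
  ring

/-- extension of isometries -/
theorem extend (a b c a' b' c' : V4) (hli : LinearIndependent ℝ ![a, b, c])
    (haa : mk a a = mk a' a') (hbb : mk b b = mk b' b') (hcc : mk c c = mk c' c')
    (hab : mk a b = mk a' b') (hac : mk a c = mk a' c') (hbc : mk b c = mk b' c')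
    (hW : mk (W a b c) (W a b c) ≠ 0) :
    ∃ L : V4 ≃ₗ[ℝ] V4, (∀ x y, mk (L x) (L y) = mk x y) ∧ L a = a' ∧ L b = b' ∧ L c = c' := by
  let v : Fin 4 → V4 := ![a, b, c, W a b c]
  let v' : Fin 4 → V4 := ![a', b', c', W a' b' c']
  have hv0 : v 0 = a := rfl
  have hv1 : v 1 = b := rfl
  have hv2 : v 2 = c := rfl
  have hv3 : v 3 = W a b c := rfl
  have hw0 : v' 0 = a' := rfl
  have hw1 : v' 1 = b' := rfl
  have hw2 : v' 2 = c' := rfl
  have hw3 : v' 3 = W a' b' c' := rfl
  have hvli : LinearIndependent ℝ v := by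
    rw [Fintype.linearIndependent_iff] at hli ⊢
    intro g hg
    have h3 : g 3 = 0 := by
      have : mk (W a b c) (∑ i, g i • v i) = 0 := by
        rw [hg]; simp [mk]
      rw [Fin.sum_univ_four, hv0, hv1, hv2, hv3] at this
      simp only [mk_add_right, mk_smul_right, W_a, W_b, W_c] at this
      have h5 : g 3 * mk (W a b c) (W a b c) = 0 := by linarith
      exact (mul_eq_zero.mp h5).resolve_right hW
    have h4 := hli ![g 0, g 1, g 2] (by
      rw [Fin.sum_univ_four, h3] at hg
      rw [Fin.sum_univ_three]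
      show g 0 • a + g 1 • b + g 2 • c = 0
      rw [zero_smul, add_zero] at hg
      exact hg)
    intro i
    fin_cases i
    · exact h4 0
    · exact h4 1
    · exact h4 2
    · exact h3
  have hWW : mk (W a b c) (W a b c) = mk (W a' b' c') (W a' b' c') := by
    rw [W_W, W_W, haa, hbb, hcc, hab, hac, hbc]
  have hgram : ∀ i j, mk (v i) (v j) = mk (v' i) (v' j) := by
    intro i j
    fin_cases i <;> fin_cases j
    · exact haa
    · exact hab
    · exact hac
    · show mk a (W a b c) = mk a' (W a' b' c')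
      rw [mk_comm a, mk_comm a', W_a, W_a]
    · show mk b a = mk b' a'
      rw [mk_comm b, mk_comm b', hab]
    · exact hbb
    · exact hbc
    · show mk b (W a b c) = mk b' (W a' b' c')
      rw [mk_comm b, mk_comm b', W_b, W_b]
    · show mk c a = mk c' a'
      rw [mk_comm c, mk_comm c', hac]
    · show mk c b = mk c' b'
      rw [mk_comm c, mk_comm c', hbc]
    · exact hcc
    · show mk c (W a b c) = mk c' (W a' b' c')
      rw [mk_comm c, mk_comm c', W_c, W_c]
    · show mk (W a b c) a = mk (W a' b' c') a'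
      rw [W_a, W_a]
    · show mk (W a b c) b = mk (W a' b' c') b'
      rw [W_b, W_b]
    · show mk (W a b c) c = mk (W a' b' c') c'
      rw [W_c, W_c]
    · exact hWW
  let B : Module.Basis (Fin 4) ℝ V4 := basisOfLinearIndependentOfCardEqFinrank hvli (by simp)
  have hB : ∀ i, B i = v i := fun i => by
    simp only [B, coe_basisOfLinearIndependentOfCardEqFinrank]
  let h : V4 →ₗ[ℝ] V4 := B.constr ℝ v'
  have hh : ∀ i, h (v i) = v' i := by
    intro i
    rw [← hB i]
    exact B.constr_basis ℝ v' i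
  have hpres : ∀ x y, mk (h x) (h y) = mk x y := by
    intro x y
    have hx : x = ∑ i, B.repr x i • v i := by
      conv_lhs => rw [← B.sum_repr x]
      exact Finset.sum_congr rfl fun i _ => by rw [hB]
    have hy : y = ∑ i, B.repr y i • v i := by
      conv_lhs => rw [← B.sum_repr y]
      exact Finset.sum_congr rfl fun i _ => by rw [hB]
    have hx' : h x = ∑ i, B.repr x i • v' i := by
      conv_lhs => rw [hx]
      rw [map_sum]
      exact Finset.sum_congr rfl fun i _ => by rw [map_smul, hh]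
    have hy' : h y = ∑ i, B.repr y i • v' i := by
      conv_lhs => rw [hy]
      rw [map_sum]
      exact Finset.sum_congr rfl fun i _ => by rw [map_smul, hh]
    rw [hx', hy', mk_sum4]
    conv_rhs => rw [hx, hy, mk_sum4]
    exact Finset.sum_congr rfl fun i _ => Finset.sum_congr rfl fun j _ => by rw [hgram]
  have hinj : Function.Injective h := by
    rw [injective_iff_map_eq_zero]
    intro x hx
    apply mk_zero_all
    intro y
    rw [← hpres x y, hx]
    simp [mk]
  refine ⟨LinearEquiv.ofInjectiveEndo h hinj, fun x y => ?_, ?_, ?_, ?_⟩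
  · exact hpres x y
  · exact hh 0
  · exact hh 1
  · exact hh 2

/-- transport of discreteness -/
theorem proper_transport (L : V4 ≃ₗ[ℝ] V4) (hL : ∀ x y, mk (L x) (L y) = mk x y) (a b c : V4)
    (hP : Proper (Gam a b c)) : Proper (Gam (L a) (L b) (L c)) := by
  intro x R
  -- the point
  have hx' : mk (L.symm x.1) (L.symm x.1) = 1 := by
    rw [← hL, L.apply_symm_apply]; exact x.2.1
  have h3 : (L.symm x.1) 3 ≠ 0 := by
    intro h0
    simp only [mk, h0] at hx'
    nlinarith [sq_nonneg ((L.symm x.1) 0), sq_nonneg ((L.symm x.1) 1), sq_nonneg ((L.symm x.1) 2)]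
  obtain ⟨y, hy⟩ : ∃ y : H3, ∀ g : Module.End ℝ V4, mk y.1 (g y.1) = mk (L.symm x.1) (g (L.symm x.1)) := by
    rcases lt_or_gt_of_ne h3 with h | h
    · refine ⟨⟨-(L.symm x.1), ?_, ?_⟩, fun g => ?_⟩
      · simp only [mk, Pi.neg_apply] at hx' ⊢
        linarith
      · show 0 < -((L.symm x.1) 3)
        linarith
      · show mk (-(L.symm x.1)) (g (-(L.symm x.1))) = _
        rw [map_neg]
        simp only [mk, Pi.neg_apply]
        ring
    · exact ⟨⟨L.symm x.1, hx', h⟩, fun g => rfl⟩
  let φ : Module.End ℝ V4 → Module.End ℝ V4 := fun g => (L.symm : V4 →ₗ[ℝ] V4) ∘ₗ g ∘ₗ (L : V4 →ₗ[ℝ] V4)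
  have hφ : ∀ g z, φ g z = L.symm (g (L z)) := fun g z => rfl
  have hinj : Function.Injective φ := by
    intro g g' hgg
    apply LinearMap.ext
    intro z
    have := LinearMap.congr_fun hgg (L.symm z)
    rw [hφ, hφ, L.apply_symm_apply] at this
    exact L.symm.injective this
  have hrefl : ∀ u : V4, φ (refl (L u)) = refl u := by
    intro u
    apply LinearMap.ext
    intro z
    rw [hφ, refl_eq, refl_eq, hL, map_add, map_smul, L.symm_apply_apply, L.symm_apply_apply]
  have hmem : ∀ g ∈ Gam (L a) (L b) (L c), φ g ∈ Gam a b c := by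
    intro g hg
    induction hg using Submonoid.closure_induction with
    | mem r hr =>
      rcases hr with h | h | h
      · rw [h, hrefl]; exact Submonoid.subset_closure (by simp)
      · rw [h, hrefl]; exact Submonoid.subset_closure (by simp)
      · rw [h, hrefl]; exact Submonoid.subset_closure (by simp)
    | one =>
      have : φ 1 = 1 := by
        apply LinearMap.ext
        intro z
        rw [hφ]
        exact L.symm_apply_apply z
      rw [this]; exact one_mem _
    | mul g g' _ _ h1 h2 =>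
      have : φ (g * g') = φ g * φ g' := by
        apply LinearMap.ext
        intro z
        show φ (g * g') z = φ g (φ g' z)
        rw [hφ, hφ, hφ, L.apply_symm_apply]
        rfl
      rw [this]; exact mul_mem h1 h2
  have hfin := (hP y R).preimage (f := φ) hinj.injOn
  apply hfin.subset
  rintro g ⟨hg, hgR⟩
  refine ⟨hmem g hg, ?_⟩
  rw [hy, hφ, ← hL, L.apply_symm_apply, L.apply_symm_apply]
  exact hgR

/-- change of the triple -/
theorem tri_transfer (p : ℕ) (n0 t t' m : V4) (hp : 3 ≤ p) (hT : Tri p n0 t t') (hm : mk m m = -1)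
    (hm0 : mk nM m = Real.cos (Real.pi / p)) (hm1 : mk (tM p) m = mk t t') (hC0 : 0 ≤ CC p t t')
    (hC1 : CC p t t' ≠ 1) : Tri p nM (tM p) m := by
  have h1 := Real.sin_sq_add_cos_sq (Real.pi / p)
  have hs := sin_pos' p hp
  have ent : mk nM (tM p) = Real.cos (Real.pi / p) := by
    simp [mk, nM, tM]
  have hτ : mk t t' = CC p t t' * Real.sin (Real.pi / p) ^ 2 - 1 + Real.sin (Real.pi / p) ^ 2 := by
    have : CC p t t' * Real.sin (Real.pi / p) ^ 2 = mk t t' + Real.cos (Real.pi / p) ^ 2 := by
      unfold CC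
      rw [div_mul_cancel₀ _ (by positivity)]
    linarith
  have hW : mk (W n0 t t') (W n0 t t') ≠ 0 := by
    have e : mk (W n0 t t') (W n0 t t') =
        -(Real.sin (Real.pi / p) ^ 4 * ((CC p t t' - 1) * (CC p t t' + 1))) := by
      rw [W_W, hT.u0, hT.ut, hT.ut', hT.a, hT.a', hτ]
      have hk : Real.cos (Real.pi / p) ^ 2 = 1 - Real.sin (Real.pi / p) ^ 2 := by linarith
      linear_combination (-2 * Real.sin (Real.pi / p) ^ 2 * (CC p t t' + 1)) * hk
    rw [e]
    apply neg_ne_zero.mpr
    apply mul_ne_zero (by positivity)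
    apply mul_ne_zero (sub_ne_zero.mpr hC1)
    linarith
  obtain ⟨L, hL, hL0, hL1, hL2⟩ := extend n0 t t' nM (tM p) m hT.li (by rw [hT.u0, nM_unit])
    (by rw [hT.ut, tM_unit]) (by rw [hT.ut', hm]) (by rw [hT.a, ent]) (by rw [hT.a', hm0]) hm1.symm hW
  refine ⟨nM_unit, tM_unit p, hm, ent, hm0, ?_, ?_⟩
  · have := hT.li.map' (L : V4 →ₗ[ℝ] V4) (LinearEquiv.ker L)
    have e : (L : V4 →ₗ[ℝ] V4) ∘ ![n0, t, t'] = ![nM, tM p, m] := by
      ext i
      fin_cases i
      · simp [hL0]
      · simp [hL1]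
      · simp [hL2]
    rw [e] at this
    exact this
  · have := proper_transport L hL n0 t t' hT.pro
    rw [hL0, hL1, hL2] at this
    exact this

theorem pf_MDH : T_MDH := by
  intro p n0 t t' hp hT hC
  have h1 := Real.sin_sq_add_cos_sq (Real.pi / p)
  have hs := sin_pos' p hp
  have h2 : CC p t t' * Real.sin (Real.pi / p) ^ 2 = mk t t' + Real.cos (Real.pi / p) ^ 2 := by
    unfold CC
    rw [div_mul_cancel₀ _ (by positivity)]
  refine tri_transfer p n0 t t' _ hp hT (hM_unit p _ hC) ?_ ?_ (by linarith) (by linarith)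
  · simp [mk, nM, hM]
  · simp only [mk, tM, hM, Matrix.cons_val]
    simp only [mk] at h2
    linarith

theorem pf_MDS : T_MDS := by
  intro p n0 t t' hp hT hC0 hC
  have h1 := Real.sin_sq_add_cos_sq (Real.pi / p)
  have hs := sin_pos' p hp
  have h2 : CC p t t' * Real.sin (Real.pi / p) ^ 2 = mk t t' + Real.cos (Real.pi / p) ^ 2 := by
    unfold CC
    rw [div_mul_cancel₀ _ (by positivity)]
  have hsq : Real.sqrt (1 - CC p t t' ^ 2) ^ 2 = 1 - CC p t t' ^ 2 := Real.sq_sqrt (by nlinarith)
  refine tri_transfer p n0 t t' _ hp hT ?_ ?_ ?_ hC0 (by linarith)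
  · simp only [mk, sM, Matrix.cons_val]
    linear_combination (-Real.sin (Real.pi / p) ^ 2) * hsq - h1
  · simp [mk, nM, sM]
  · simp only [mk, tM, sM, Matrix.cons_val]
    simp only [mk] at h2
    linarith

end Pool.Agent.H48.TOH
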