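import Mathlib
import Pool.Agent.H48.TOH.Base

/-!
# New pairs of centres (T_HPA, T_HPB) and two special pairs (T_HJV)
-/

set_option linter.unusedSimpArgs false

namespace Pool.Agent.H48.TOH

open Pool.Agent.H57.CP Pool.Agent.H39.TO

theorem pf_HPA : T_LOR → T_HPA := by
  intro hL p C hp hC hT x hx y hy hne
  obtain ⟨hx1, hx3, hx2, hxR⟩ := PH_main p C hC hL x hx
  obtain ⟨hy1, hy3, hy2, hyR⟩ := PH_main p C hC hL y hy
  obtain ⟨r, hr, hf⟩ := hxR 1 (Or.inl rfl)
  refine ⟨y, hy, r y, PH_act p C y hy r hr, ?_⟩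
  rw [hf y hy2, mk_add_right, mk_add_right, mk_smul_right, mk_smul_right, mk_smul_right, mk_X_right, hy1,
    mk_comm y x]
  ring

theorem pf_HPB : T_LOR → T_HPB := by
  intro hL p C hp hC hT x hx y hy hne
  obtain ⟨hx1, hx3, hx2, hxR⟩ := PH_main p C hC hL x hx
  obtain ⟨hy1, hy3, hy2, hyR⟩ := PH_main p C hC hL y hy
  obtain ⟨r, hr, hf⟩ := hxR 1 (Or.inl rfl)
  obtain ⟨r', hr', hf'⟩ := hyR (-1) (Or.inr rfl)
  refine ⟨r' x, PH_act p C x hx r' hr', r y, PH_act p C y hy r hr, ?_⟩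
  have h1 := Real.sin_sq_add_cos_sq (Real.pi / p)
  rw [hf y hy2, hf' x hx2, X_anti x y]
  simp only [mk_add_right, mk_add_left, mk_smul_right, mk_smul_left]
  have e1 : mk (-X x y) y = 0 := by
    have := mk_X_right x y
    rw [mk_comm] at this
    simp only [mk, Pi.neg_apply] at this ⊢
    linarith
  have e2 : mk (-X x y) x = 0 := by
    have := mk_X_left x y
    rw [mk_comm] at this
    simp only [mk, Pi.neg_apply] at this ⊢
    linarith
  have e3 : mk (-X x y) (X x y) = -(mk x x * mk y y - mk x y ^ 2) := by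
    have := mk_X_X x y hx2 hy2
    simp only [mk, Pi.neg_apply] at this ⊢
    linarith
  rw [e1, e2, e3, mk_X_left, mk_X_right, hx1, hy1, mk_comm y x, c2_eq]
  have h2 : Real.cos (Real.pi / p) ^ 2 = 1 - Real.sin (Real.pi / p) ^ 2 := by linarith
  have h3 : 1 * (2 * Real.sin (Real.pi / ↑p) * Real.cos (Real.pi / ↑p)) *
      (-1 * (2 * Real.sin (Real.pi / ↑p) * Real.cos (Real.pi / ↑p)) * -(1 * 1 - mk x y ^ 2)) =
      4 * Real.sin (Real.pi / p) ^ 2 * (1 - Real.sin (Real.pi / p) ^ 2) * (1 - mk x y ^ 2) := by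
    rw [← h2]; ring
  linear_combination h3

theorem pf_HJV : T_HJV := by
  intro p C hp hC hT τ hτ
  have h1 := Real.sin_sq_add_cos_sq (Real.pi / p)
  have h2 : Real.sqrt (C ^ 2 - 1) ^ 2 = C ^ 2 - 1 := Real.sq_sqrt (by nlinarith)
  have hoP : o.1 ∈ PH p C := ⟨1, one_mem _, Or.inl rfl⟩
  have haP : aH C ∈ PH p C := ⟨1, one_mem _, Or.inr rfl⟩
  have ht : refl (tM p) ∈ Gam nM (tM p) (hM p C) := Submonoid.subset_closure (by simp)
  have hh : refl (hM p C) ∈ Gam nM (tM p) (hM p C) := Submonoid.subset_closure (by simp)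
  have eoh : mk o.1 (hM p C) = -(Real.sin (Real.pi / p) * Real.sqrt (C ^ 2 - 1)) := by
    simp [mk, o, hM]
  have eot : mk o.1 (tM p) = 0 := by
    simp [mk, o, tM]
  have eoa : mk o.1 (aH C) = C := by
    simp [mk, o, aH]
  have eth : mk (tM p) (hM p C) = τ := by
    rw [hτ]
    simp only [mk, tM, hM, Matrix.cons_val]
    ring
  have eha : mk (hM p C) (aH C) = 0 := by
    simp only [mk, hM, aH, Matrix.cons_val]
    ring
  have eta : mk (tM p) (aH C) = -(Real.sin (Real.pi / p) * Real.sqrt (C ^ 2 - 1)) := by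
    simp only [mk, tM, aH, Matrix.cons_val]
    ring
  have ett := tM_unit p
  have ehh := hM_unit p C hC
  have eoo : mk o.1 o.1 = 1 := o.2.1
  refine ⟨⟨o.1, hoP, refl (tM p) (refl (hM p C) (refl (tM p) (refl (hM p C) o.1))), ?_, ?_⟩,
    ⟨o.1, hoP, refl (hM p C) (refl (tM p) (aH C)), ?_, ?_⟩, hoP, haP, eoa⟩
  · exact PH_act p C _ (PH_act p C _ (PH_act p C _ (PH_act p C _ hoP _ hh) _ ht) _ hh) _ ht
  · rw [← mk_refl_left, ← mk_refl_left, ← mk_refl_left]
    have z0 : refl (tM p) o.1 = o.1 := by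
      rw [refl_eq, mk_comm, eot]; simp
    rw [z0, mk_comm _ (refl (hM p C) o.1)]
    have z1 : refl (tM p) (refl (hM p C) o.1) = refl (hM p C) o.1 +
        (2 * mk (tM p) (refl (hM p C) o.1)) • tM p := refl_eq _ _
    have z2 : mk (tM p) (refl (hM p C) o.1) = -2 * (Real.sin (Real.pi / p) * Real.sqrt (C ^ 2 - 1)) * τ := by
      rw [refl_eq, mk_add_right, mk_smul_right, eth, mk_comm _ o.1, mk_comm _ o.1, eot, eoh]; ring
    have z3 : mk (refl (hM p C) o.1) (refl (hM p C) o.1) = 1 := by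
      rw [mk_refl_refl _ ehh, eoo]
    rw [z1, mk_add_right, mk_smul_right, mk_comm _ (tM p), z2, z3, c2_eq]
    have hk : Real.cos (Real.pi / p) ^ 2 = 1 - Real.sin (Real.pi / p) ^ 2 := by linarith
    have hτ' : C * Real.sin (Real.pi / p) ^ 2 = τ + 1 - Real.sin (Real.pi / p) ^ 2 := by
      rw [hτ, hk]; ring
    have h5 : (Real.sin (Real.pi / p)) ^ 4 * Real.sqrt (C ^ 2 - 1) ^ 2 =
        (τ + 1) * (1 - 2 * Real.sin (Real.pi / p) ^ 2 + τ) := by
      rw [h2]
      have : (Real.sin (Real.pi / p)) ^ 4 * (C ^ 2 - 1) = (C * Real.sin (Real.pi / p) ^ 2) ^ 2 -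
        (Real.sin (Real.pi / p)) ^ 4 := by ring
      rw [this, hτ']; ring
    linear_combination (8 * τ ^ 2) * h5
  · exact PH_act p C _ (PH_act p C _ haP _ ht) _ hh
  · rw [← mk_refl_left, refl_eq, refl_eq, mk_comm (hM p C) o.1, mk_add_left, mk_add_right, mk_add_right, mk_smul_left,
      mk_smul_left, mk_smul_right, mk_smul_right, eoh, eoa, eot, eta, eha, mk_comm (hM p C), eth, c2_eq]
    have hk : Real.cos (Real.pi / p) ^ 2 = 1 - Real.sin (Real.pi / p) ^ 2 := by linarith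
    have hτ' : C * Real.sin (Real.pi / p) ^ 2 = τ + 1 - Real.sin (Real.pi / p) ^ 2 := by
      rw [hτ, hk]; ring
    have h5 : (Real.sin (Real.pi / p)) ^ 4 * Real.sqrt (C ^ 2 - 1) ^ 2 =
        (τ + 1) * (1 - 2 * Real.sin (Real.pi / p) ^ 2 + τ) := by
      rw [h2]
      have : (Real.sin (Real.pi / p)) ^ 4 * (C ^ 2 - 1) = (C * Real.sin (Real.pi / p) ^ 2) ^ 2 -
        (Real.sin (Real.pi / p)) ^ 4 := by ring
      rw [this, hτ']; ring
    linear_combination (4 * τ) * h5 + hτ'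

end Pool.Agent.H48.TOH
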