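import Mathlib
import Pool.Agent.H48.TOH.HPA

/-!
# Centres are separated (T_HSP), lower bounds for their distances (T_HC3, T_HC4), the result (T_HYP)
-/

set_option linter.unusedSimpArgs false

namespace Pool.Agent.H48.TOH

open Pool.Agent.H57.CP Pool.Agent.H39.TO

/-- elements of the group are invertible in the group, and preserve the product -/
theorem Gam_inv (p : ℕ) (C : ℝ) (hC : 1 < C) (g : Module.End ℝ V4) (hg : g ∈ Gam nM (tM p) (hM p C)) :
    ∃ h ∈ Gam nM (tM p) (hM p C), ∀ x y, mk (g x) y = mk x (h y) := by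
  induction hg using Submonoid.closure_induction_left with
  | one => exact ⟨1, one_mem _, fun x y => rfl⟩
  | mul_left r hr y hy ih =>
    obtain ⟨a, rfl, ha, ha2⟩ := gen_cases p C hC r hr
    obtain ⟨h, hh, hf⟩ := ih
    refine ⟨h * refl a, mul_mem hh (Submonoid.subset_closure hr), fun x z => ?_⟩
    show mk (refl a (y x)) z = mk x (h (refl a z))
    rw [mk_refl_left, hf]

theorem Gam_mk (p : ℕ) (C : ℝ) (hC : 1 < C) (g : Module.End ℝ V4) (hg : g ∈ Gam nM (tM p) (hM p C)) :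
    ∀ x y, mk (g x) (g y) = mk x y := by
  induction hg using Submonoid.closure_induction_left with
  | one => intro x y; rfl
  | mul_left r hr y hy ih =>
    obtain ⟨a, rfl, ha, ha2⟩ := gen_cases p C hC r hr
    intro x z
    show mk (refl a (y x)) (refl a (y z)) = mk x z
    rw [mk_refl_refl a ha, ih]

theorem pf_HSP : T_LOR → T_CTR → T_HSP := by
  intro hL hCT p C hp hC hT
  -- points of `H3`
  let pa : H3 := ⟨aH C, aH_unit C hC, by show (0 : ℝ) < C; linarith⟩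
  have hmem : ∀ u : H3, (u = o ∨ u = pa) → ∀ g ∈ Gam nM (tM p) (hM p C), ∃ v : H3, v.1 = g u.1 := by
    intro u hu g hg
    have : g u.1 ∈ PH p C := ⟨g, hg, by rcases hu with rfl | rfl <;> simp [pa]⟩
    obtain ⟨h1, h2, -, -⟩ := PH_main p C hC hL _ this
    exact ⟨⟨g u.1, h1, h2⟩, rfl⟩
  have hfin : ∀ u u' : H3, (u = o ∨ u = pa) → (u' = o ∨ u' = pa) →
      {g | g ∈ Gam nM (tM p) (hM p C) ∧ mk u.1 (g u'.1) ≤ 2}.Finite := by
    intro u u' hu hu'
    apply (hT.pro u (4 * ch u' u)).subset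
    rintro g ⟨hg, hgl⟩
    refine ⟨hg, ?_⟩
    obtain ⟨v, hv⟩ := hmem u hu g hg
    obtain ⟨v', hv'⟩ := hmem u' hu' g hg
    have h1 := (hCT u v' v).2.2
    have h2 : ch u v' ≤ 2 := by
      show mk u.1 v'.1 ≤ 2
      rw [hv']; exact hgl
    have h3 : ch v' v = ch u' u := by
      show mk v'.1 v.1 = mk u'.1 u.1
      rw [hv, hv', Gam_mk p C hC g hg]
    have h4 : 1 ≤ ch u' u := (hCT u' u u).1
    rw [← hv]
    show ch u v ≤ _
    rw [h3] at h1
    nlinarith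
  have hval : {r : ℝ | 1 < r ∧ r ≤ 2 ∧ ∃ x ∈ PH p C, ∃ y ∈ PH p C, mk x y = r}.Finite := by
    have hf : ((fun g : Module.End ℝ V4 => mk o.1 (g o.1)) '' {g | g ∈ Gam nM (tM p) (hM p C) ∧ mk o.1 (g o.1) ≤ 2} ∪
        (fun g : Module.End ℝ V4 => mk o.1 (g pa.1)) '' {g | g ∈ Gam nM (tM p) (hM p C) ∧ mk o.1 (g pa.1) ≤ 2} ∪
        (fun g : Module.End ℝ V4 => mk pa.1 (g o.1)) '' {g | g ∈ Gam nM (tM p) (hM p C) ∧ mk pa.1 (g o.1) ≤ 2} ∪
        (fun g : Module.End ℝ V4 => mk pa.1 (g pa.1)) '' {g | g ∈ Gam nM (tM p) (hM p C) ∧ mk pa.1 (g pa.1) ≤ 2}).Finite := by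
      refine Set.Finite.union (Set.Finite.union (Set.Finite.union ?_ ?_) ?_) ?_
      · exact (hfin o o (Or.inl rfl) (Or.inl rfl)).image _
      · exact (hfin o pa (Or.inl rfl) (Or.inr rfl)).image _
      · exact (hfin pa o (Or.inr rfl) (Or.inl rfl)).image _
      · exact (hfin pa pa (Or.inr rfl) (Or.inr rfl)).image _
    apply hf.subset
    rintro r ⟨hr1, hr2, x, ⟨g, hg, hx⟩, y, ⟨g', hg', hy⟩, hr⟩
    obtain ⟨h, hh, hi⟩ := Gam_inv p C hC g hg
    rcases hx with hx | hx <;> rcases hy with hy | hy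
    · have e : mk o.1 ((h * g') o.1) = r := by
        show mk o.1 (h (g' o.1)) = r
        rw [← hi, ← hx, ← hy, hr]
      refine Or.inl (Or.inl (Or.inl ⟨h * g', ⟨mul_mem hh hg', ?_⟩, e⟩))
      rw [e]; exact hr2
    · have e : mk o.1 ((h * g') pa.1) = r := by
        show mk o.1 (h (g' (aH C))) = r
        rw [← hi, ← hx, ← hy, hr]
      refine Or.inl (Or.inl (Or.inr ⟨h * g', ⟨mul_mem hh hg', ?_⟩, e⟩))
      rw [e]; exact hr2
    · have e : mk pa.1 ((h * g') o.1) = r := by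
        show mk (aH C) (h (g' o.1)) = r
        rw [← hi, ← hx, ← hy, hr]
      refine Or.inl (Or.inr ⟨h * g', ⟨mul_mem hh hg', ?_⟩, e⟩)
      rw [e]; exact hr2
    · have e : mk pa.1 ((h * g') pa.1) = r := by
        show mk (aH C) (h (g' (aH C))) = r
        rw [← hi, ← hx, ← hy, hr]
      refine Or.inr ⟨h * g', ⟨mul_mem hh hg', ?_⟩, e⟩
      rw [e]; exact hr2
  have hgt : ∀ x ∈ PH p C, ∀ y ∈ PH p C, x ≠ y → 1 < mk x y := by
    intro x hx y hy hne
    obtain ⟨hx1, hx3, -, -⟩ := PH_main p C hC hL x hx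
    obtain ⟨hy1, hy3, -, -⟩ := PH_main p C hC hL y hy
    obtain ⟨h1, h2, -⟩ := hCT ⟨x, hx1, hx3⟩ ⟨y, hy1, hy3⟩ o
    rcases lt_or_eq_of_le h1 with h | h
    · exact h
    · exact absurd (congrArg Subtype.val (h2 h.symm)) hne
  by_cases hne : {r : ℝ | 1 < r ∧ r ≤ 2 ∧ ∃ x ∈ PH p C, ∃ y ∈ PH p C, mk x y = r}.Nonempty
  · obtain ⟨m, hm, hmin⟩ := Set.exists_min_image _ id hval hne
    refine ⟨m - 1, by linarith [hm.1], fun x hx y hy hxy => ?_⟩
    have h1 := hgt x hx y hy hxy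
    by_cases h2 : mk x y ≤ 2
    · have := hmin (mk x y) ⟨h1, h2, x, hx, y, hy, rfl⟩
      simp only [id] at this
      linarith
    · have := hm.2.1
      linarith [not_le.mp h2]
  · refine ⟨1, one_pos, fun x hx y hy hxy => ?_⟩
    by_contra hlt
    exact hne ⟨mk x y, hgt x hx y hy hxy, by linarith [not_le.mp hlt], x, hx, y, hy, rfl⟩

/-- descent -/
theorem descent (p : ℕ) (C : ℝ) (hC : 1 < C) (hL : T_LOR) (ε : ℝ) (hε : 0 < ε)
    (hsep : ∀ x ∈ PH p C, ∀ y ∈ PH p C, x ≠ y → 1 + ε ≤ mk x y) (C0 l : ℝ) (hl1 : l < 1)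
    (F : ℝ → ℝ) (hF : ∀ t, 1 < t → t ≤ C0 → 1 < F t ∧ F t - 1 ≤ l * (t - 1))
    (hF' : ∀ x ∈ PH p C, ∀ y ∈ PH p C, x ≠ y → ∃ x' ∈ PH p C, ∃ y' ∈ PH p C, mk x' y' = F (mk x y))
    (x y : V4) (hx : x ∈ PH p C) (hy : y ∈ PH p C) (hxy : 1 < mk x y) (h0 : mk x y ≤ C0) : False := by
  have hl0 : 0 < l := by
    obtain ⟨h1, h2⟩ := hF _ hxy h0
    by_contra hh
    push Not at hh
    nlinarith
  have key : ∀ n : ℕ, ∃ x' ∈ PH p C, ∃ y' ∈ PH p C, 1 < mk x' y' ∧ mk x' y' ≤ C0 ∧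
      mk x' y' - 1 ≤ l ^ n * (C0 - 1) := by
    intro n
    induction n with
    | zero => exact ⟨x, hx, y, hy, hxy, h0, by simp; exact h0⟩
    | succ n ih =>
      obtain ⟨x', hx', y', hy', h1, h2, h3⟩ := ih
      have hne : x' ≠ y' := by
        rintro rfl
        have := (PH_main p C hC hL x' hx').1
        linarith
      obtain ⟨x'', hx'', y'', hy'', h4⟩ := hF' x' hx' y' hy' hne
      obtain ⟨h5, h6⟩ := hF _ h1 h2
      refine ⟨x'', hx'', y'', hy'', by rw [h4]; exact h5, ?_, ?_⟩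
      · rw [h4]; nlinarith
      · rw [h4, pow_succ]
        calc F (mk x' y') - 1 ≤ l * (mk x' y' - 1) := h6
          _ ≤ l * (l ^ n * (C0 - 1)) := mul_le_mul_of_nonneg_left h3 hl0.le
          _ = l ^ n * l * (C0 - 1) := by ring
  have hlim : Filter.Tendsto (fun n : ℕ => l ^ n * (C0 - 1)) Filter.atTop (nhds 0) := by
    have := (tendsto_pow_atTop_nhds_zero_of_lt_one hl0.le hl1).mul_const (C0 - 1)
    simpa using this
  obtain ⟨n, hn⟩ := (hlim.eventually (gt_mem_nhds hε)).exists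
  obtain ⟨x', hx', y', hy', h1, h2, h3⟩ := key n
  have hne : x' ≠ y' := by
    rintro rfl
    have := (PH_main p C hC hL x' hx').1
    linarith
  have := hsep x' hx' y' hy' hne
  linarith

theorem c2_gt_half (p : ℕ) (hp : 7 ≤ p) : 1 / 2 < c2 p := by
  have hp' : (7 : ℝ) ≤ p := by exact_mod_cast hp
  unfold c2
  rw [← Real.cos_pi_div_three]
  apply Real.cos_lt_cos_of_nonneg_of_le_pi
  · exact div_nonneg (by linarith [Real.pi_pos]) (by linarith)
  · linarith [Real.pi_pos]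
  · rw [div_lt_div_iff₀ (by linarith) (by norm_num)]
    nlinarith [Real.pi_pos]

theorem c2_five_lt (h : (0 : ℝ) < 1) : c2 5 < 1 / 2 := by
  unfold c2
  rw [← Real.cos_pi_div_three]
  apply Real.cos_lt_cos_of_nonneg_of_le_pi
  · linarith [Real.pi_pos]
  · rw [div_le_iff₀ (by norm_num)]
    push_cast
    nlinarith [Real.pi_pos]
  · push_cast
    rw [div_lt_div_iff₀ (by norm_num) (by norm_num)]
    nlinarith [Real.pi_pos]

theorem pf_HC3 : T_LOR → T_HSP → T_HPA → T_HC3 := by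
  intro hL hS hA p C hp hC hT x hx y hy hne
  have hp3 : 3 ≤ p := by omega
  obtain ⟨ε, hε, hsep⟩ := hS p C hp3 hC hT
  by_contra hlt
  push Not at hlt
  have hc1 := c2_lt_one p hp3
  have hc2 := c2_gt_half p hp
  have h1 : 1 < mk x y := by linarith [hsep x hx y hy hne]
  refine descent p C hC hL ε hε hsep (mk x y) ((1 - c2 p) * (mk x y + 1)) (by linarith)
    (fun t => c2 p + (1 - c2 p) * t ^ 2) (fun t ht1 ht2 => ⟨?_, ?_⟩) (hA p C hp3 hC hT) x y hx hy h1 le_rfl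
  · show 1 < c2 p + (1 - c2 p) * t ^ 2
    have : 0 < (1 - c2 p) * ((t - 1) * (t + 1)) := mul_pos (by linarith) (mul_pos (by linarith) (by linarith))
    nlinarith
  have e : c2 p + (1 - c2 p) * t ^ 2 - 1 = (1 - c2 p) * (t + 1) * (t - 1) := by ring
  show c2 p + (1 - c2 p) * t ^ 2 - 1 ≤ _
  rw [e]
  apply mul_le_mul_of_nonneg_right _ (by linarith)
  apply mul_le_mul_of_nonneg_left _ (by linarith)
  linarith

theorem pf_HC4 : T_LOR → T_HSP → T_HPB → T_HC4 := by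
  intro hL hS hB C hC hT x hx y hy hne
  obtain ⟨ε, hε, hsep⟩ := hS 5 C (by norm_num) hC hT
  by_contra hlt
  push Not at hlt
  have hc1 := c2_lt_one 5 (by norm_num)
  have hc2 := c2_five_lt one_pos
  have h1 : 1 < mk x y := by linarith [hsep x hx y hy hne]
  have hth : 0 < (1 - c2 5) * mk x y - c2 5 := by nlinarith
  have hth1 : (1 - c2 5) * mk x y - c2 5 < 1 := by linarith
  refine descent 5 C hC hL ε hε hsep (mk x y) (((1 - c2 5) * mk x y - c2 5) ^ 2) (by nlinarith)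
    (fun t => 1 + (t - 1) * ((1 - c2 5) * t - c2 5) ^ 2) (fun t ht1 ht2 => ?_) (hB 5 C (by norm_num) hC hT)
    x y hx hy h1 le_rfl
  have h2 : 0 < (1 - c2 5) * t - c2 5 := by nlinarith
  have h3 : (1 - c2 5) * t - c2 5 ≤ (1 - c2 5) * mk x y - c2 5 := by nlinarith
  constructor
  · have : 0 < (t - 1) * ((1 - c2 5) * t - c2 5) ^ 2 := mul_pos (by linarith) (by positivity)
    show 1 < 1 + (t - 1) * ((1 - c2 5) * t - c2 5) ^ 2
    linarith
  · show 1 + (t - 1) * ((1 - c2 5) * t - c2 5) ^ 2 - 1 ≤ _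
    have h4 : ((1 - c2 5) * t - c2 5) ^ 2 ≤ ((1 - c2 5) * mk x y - c2 5) ^ 2 := by
      apply pow_le_pow_left₀ h2.le h3
    nlinarith

end Pool.Agent.H48.TOH
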