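import Mathlib
import Pool.Agent.H48.TOH.HSP

/-!
# The result in the hyperbolic case (T_HYP)
-/

set_option linter.unusedSimpArgs false

namespace Pool.Agent.H48.TOH

open Pool.Agent.H57.CP Pool.Agent.H39.TO

theorem pf_HYP : T_LOR → T_MDH → T_HC3 → T_HC4 → T_HJV → T_HYP := by
  intro hL hM' h3 h4 hJ p n0 t t' hT hC
  have h1 := Real.sin_sq_add_cos_sq (Real.pi / p)
  have hu : ∀ C : ℝ, 1 < C → ∀ x ∈ PH p C, mk x x = 1 := fun C hC x hx => (PH_main p C hC hL x hx).1
  -- common part
  have com : 3 ≤ p → Tri p nM (tM p) (hM p (CC p t t')) ∧ 0 < Real.sin (Real.pi / p) ∧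
      CC p t t' * Real.sin (Real.pi / p) ^ 2 = mk t t' + 1 - Real.sin (Real.pi / p) ^ 2 ∧ 0 < c2 p + mk t t' ∧
      mk t t' = CC p t t' * Real.sin (Real.pi / p) ^ 2 - Real.cos (Real.pi / p) ^ 2 := by
    intro hp
    have hs := sin_pos' p hp
    have e : CC p t t' * Real.sin (Real.pi / p) ^ 2 = mk t t' + Real.cos (Real.pi / p) ^ 2 := by
      unfold CC
      rw [div_mul_cancel₀ _ (by positivity)]
    refine ⟨hM' p n0 t t' hp hT hC, hs, by linarith, ?_, by linarith⟩
    rw [c2_eq]
    have : Real.sin (Real.pi / p) ^ 2 < CC p t t' * Real.sin (Real.pi / p) ^ 2 := by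
      have : 0 < Real.sin (Real.pi / p) ^ 2 := by positivity
      nlinarith
    nlinarith
  generalize hCC : CC p t t' = C at *
  generalize hττ : mk t t' = τ at *
  constructor
  · intro hp
    obtain ⟨hT', hs, e, hct, eτ⟩ := com (by omega)
    obtain ⟨⟨x1, hx1, y1, hy1, h5⟩, ⟨x2, hx2, y2, hy2, h6⟩, hoP, haP, h7⟩ := hJ p C (by omega) hC hT' τ eτ
    have key := h3 p C hp hC hT'
    have hs2 : 0 < Real.sin (Real.pi / p) ^ 2 := by positivity
    have ec := c2_eq p
    refine ⟨?_, ?_, ?_⟩
    · have hne : o.1 ≠ aH C := by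
        intro hh
        rw [← hh, o_in] at h7
        linarith
      have := key _ hoP _ haP hne
      rw [h7, ec] at this
      nlinarith
    · by_cases hxy : x2 = y2
      · left
        rw [hxy, hu C hC y2 hy2] at h6
        have : (c2 p + τ) * (1 + 2 * τ) ^ 2 = 0 := by linarith
        rcases mul_eq_zero.mp this with h | h
        · linarith
        · exact pow_eq_zero_iff (by norm_num) |>.mp h
      · right
        have := key _ hx2 _ hy2 hxy
        have e2 : (1 - c2 p) * mk x2 y2 = 2 * (Real.sin (Real.pi / p) ^ 2 * mk x2 y2) := by rw [ec]; ring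
        rw [e2, h6] at this
        linarith
    · by_cases hxy : x1 = y1
      · rw [hxy, hu C hC y1 hy1] at h5
        have : τ ^ 2 * ((1 + τ) * (c2 p + τ)) = 0 := by linarith
        rcases mul_eq_zero.mp this with h | h
        · left; exact pow_eq_zero_iff (by norm_num) |>.mp h
        · rcases mul_eq_zero.mp h with h | h
          · right; left; linarith
          · linarith
      · right; right
        have := key _ hx1 _ hy1 hxy
        have e2 : (1 - c2 p) * mk x1 y1 = 2 * (Real.sin (Real.pi / p) ^ 2 * mk x1 y1) := by rw [ec]; ring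
        rw [e2, h5] at this
        linarith
  · intro hp
    subst hp
    obtain ⟨hT', hs, e, hct, eτ⟩ := com (by omega)
    obtain ⟨⟨x1, hx1, y1, hy1, h5⟩, -, hoP, haP, h7⟩ := hJ 5 C (by omega) hC hT' τ eτ
    have key := h4 C hC hT'
    have hs2 : 0 < Real.sin (Real.pi / (5 : ℕ)) ^ 2 := by positivity
    have ec := c2_eq 5
    have h0 : 0 ≤ τ := by
      have hne : o.1 ≠ aH C := by
        intro hh
        rw [← hh, o_in] at h7
        linarith
      have := key _ hoP _ haP hne
      rw [h7, ec] at this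
      nlinarith
    refine ⟨h0, ?_⟩
    by_cases hxy : x1 = y1
    · rw [hxy, hu C hC y1 hy1] at h5
      have : τ ^ 2 * ((1 + τ) * (c2 5 + τ)) = 0 := by linarith
      rcases mul_eq_zero.mp this with h | h
      · left; exact pow_eq_zero_iff (by norm_num) |>.mp h
      · rcases mul_eq_zero.mp h with h | h
        · linarith
        · linarith
    · right
      have := key _ hx1 _ hy1 hxy
      have e2 : (1 - c2 5) * mk x1 y1 = 2 * (Real.sin (Real.pi / (5 : ℕ)) ^ 2 * mk x1 y1) := by rw [ec]; ring
      rw [e2, h5] at this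
      linarith

end Pool.Agent.H48.TOH
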